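import Pool.Agent.K3h48.RK.Stm

/-!
# RK brick HULL
-/

set_option autoImplicit false

namespace K3h43.RK

open Set Topology Filter K3h48.RK

universe u

/-- Continuous linear functionals on the weak* dual are evaluations. -/
lemma rep {X : Type u} [NormedAddCommGroup X] [NormedSpace ℝ X]
    (l : StrongDual ℝ (WeakDual ℝ X)) : ∃ x : X, ∀ φ : WeakDual ℝ X, l φ = φ x := by
  obtain ⟨x, hx⟩ := LinearMap.dualEmbedding_surjective (topDualPairing ℝ X) l
  refine ⟨x, fun φ => ?_⟩
  rw [← hx]
  rfl

instance locConv {X : Type u} [NormedAddCommGroup X] [NormedSpace ℝ X] :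
    LocallyConvexSpace ℝ (WeakDual ℝ X) :=
  inferInstanceAs (LocallyConvexSpace ℝ (WeakBilin (topDualPairing ℝ X)))

lemma dirac_apply (K : Type u) [TopologicalSpace K] [CompactSpace K] (x : K) (g : C(K, ℝ)) :
    dirac K x g = g x := rfl

theorem hull : K3h48.RK.t_HULL.{u} := by
  intro K _ _
  constructor
  · intro C hC hconv hdir μ hμ
    by_contra hμC
    obtain ⟨l, u, hs, hu⟩ := geometric_hahn_banach_closed_point hconv hC hμC
    obtain ⟨g, hg⟩ := rep l
    have h1 : ∀ x, g x < u := by
      intro x
      have := hs _ (hdir x)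
      rwa [hg] at this
    have h2 : (0 : C(K, ℝ)) ≤ u • (1 : C(K, ℝ)) - g := by
      intro x
      have := h1 x
      show (0 : ℝ) ≤ u * 1 - g x
      linarith
    have h3 := hμ.1 _ h2
    rw [map_sub, map_smul, hμ.2, smul_eq_mul, mul_one] at h3
    rw [hg] at hu
    linarith
  · intro C hC hconv hdir hdir' hne φ hφ
    by_contra hφC
    obtain ⟨l, u, hs, hu⟩ := geometric_hahn_banach_closed_point hconv hC hφC
    obtain ⟨g, hg⟩ := rep l
    rw [hg] at hu
    rcases isEmpty_or_nonempty K with hK | hK
    · obtain ⟨c, hc⟩ := hne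
      have h1 := hs c hc
      rw [hg] at h1
      have hg0 : g = 0 := by
        ext x
        exact hK.elim x
      rw [hg0, map_zero] at h1 hu
      linarith
    · have h1 : ∀ x, g x < u := by
        intro x
        have := hs _ (hdir x)
        rwa [hg] at this
      have h2 : ∀ x, - g x < u := by
        intro x
        have := hs _ (hdir' x)
        rw [hg] at this
        exact this
      obtain ⟨x₀⟩ := hK
      have hu0 : 0 ≤ u := by
        have := h1 x₀
        have := h2 x₀
        linarith
      have h3 : ‖g‖ ≤ u := by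
        rw [ContinuousMap.norm_le _ hu0]
        intro x
        rw [Real.norm_eq_abs, abs_le]
        constructor
        · linarith [h2 x]
        · exact (h1 x).le
      have h4 := hφ g
      have h5 := le_abs_self (φ g)
      linarith

end K3h43.RK
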